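import Pool.Agent.N20.DI.Fin

/-!
MP_baa4d7_al (Dade's invariant conjecture): the case of a cyclic group `E/G` is equivalent to the
ordinary conjecture (the case `E = G`).

Notation (`Pool/Agent/N20/DI/Def.lean`, `Stm2.lean`, `Stm3.lean`, `Fin.lean`,
`Pool/Agent/R674/Tw/Defs.lean`, `Pool/Agent/Y63/NV/Defs.lean`). `G` is a normal subgroup of the finite
group `E`, `Ē = E/G`.
* blocks are given by their central characters, homomorphisms `B` from the centre of `F[G]` to the
  algebraically closed field `F` of characteristic `p` (`IsBlock`); `red` is a reduction map from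
  the algebraic integers to `F`; `centralValue red χ` is the reduction of the central character of
  the irreducible complex character `χ`, that is, the block of `χ`; `numDzBlock p red B` is the number
  of characters of defect zero in `B`, so `numDzBlock p red B = 0` says `D(B) ≠ 1`;
* `RCh p G` is the set of the radical `p`-chains `1 < P_1 < ... < P_n` of `G`, given as the sets
  `{P_1, ..., P_n}`; `radSum p G f = ∑_C (-1)^|C| f(C)`, over representatives of their `G`-classes;
* `NEbar G σ ψ = N_Ē(C, ψ)`; `HasDef p d ψ` says that `ψ` has defect `d`;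
* `kdU p red G B d U σ = k_C(B, d, U)` is the number of `ψ ∈ Irr(N_G(C))` with `d(ψ) = d`,
  `b(ψ)^G = B` and `N_Ē(C, ψ) = U`; `kdGe` is the same with `N_Ē(C, ψ) ≥ U`;
* `DadeInv p red G`: if `O_p(G) = 1` then `∑_C (-1)^|C| k_C(B, d, U) = 0` for all blocks `B` with
  `D(B) ≠ 1`, all `d` and all `U ≤ Ē`, that is, Dade's invariant conjecture for `(p, G, E)`;
  `DadeInv p red (⊤ : Subgroup E)` is the case `G = E`, Dade's ordinary conjecture for `E`;
* `DadeLoc p red G K`: Dade's ordinary conjecture holds for all groups isomorphic to `N_K(P)/P`, where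
  `P ≤ K` is a `p`-subgroup with `G ∩ P = 1`.
-/

set_option autoImplicit false

open scoped Classical

namespace Pool.Agent.Results.MP_baa4d7_al.CyclicOperators

open Pool.Agent.Y63.NV (IsBlock numDzBlock)
open Pool.Agent.N20.DI

/-- Let `p` be a prime.
1. Dade's ordinary conjecture holds for all finite groups if and only if Dade's invariant conjecture
holds for all finite groups `E` and normal subgroups `G` such that `E/G` is cyclic.
2. Both are equivalent to the following statement for arbitrary finite groups `E` and normal subgroups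
`G` with `O_p(G) = 1`: `∑_C (-1)^|C| |{ψ ∈ Irr(N_G(C)) : d(ψ) = d, b(ψ)^G = B, N_Ē(C, ψ) ≥ U}| = 0` for
all blocks `B` of `G` with `D(B) ≠ 1`, all `d` and all cyclic subgroups `U` of `Ē`.
3. For a single pair `(G, E)` and a cyclic subgroup `U` of `Ē` the statement in 2. follows from the
ordinary conjecture for the groups `N_K(P)/P`, where `G ≤ K ≤ E`, `K/G ≤ U` and `P` is a `p`-subgroup
of `K` with `G ∩ P = 1`; if `Ē` is cyclic, the invariant conjecture for `(G, E)` follows from the
ordinary conjecture for the groups `N_K(P)/P`, where `G ≤ K ≤ E` and `P` is as before. -/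
theorem result (p : ℕ) [Fact p.Prime] (F : Type) [Field F] [IsAlgClosed F] [CharP F p]
    (red : integralClosure ℤ ℂ →+* F) :
    ((∀ (E : Type) [Group E] [Finite E], DadeInv p red (⊤ : Subgroup E)) ↔
      ∀ (E : Type) [Group E] [Finite E] (G : Subgroup E) [G.Normal], IsCyclic (E ⧸ G) →
        DadeInv p red G) ∧
    ((∀ (E : Type) [Group E] [Finite E], DadeInv p red (⊤ : Subgroup E)) ↔
      ∀ (E : Type) [Group E] [Finite E] (G : Subgroup E) [G.Normal],
        (∀ P : Subgroup G, P.Normal → IsPGroup p P → P = ⊥) →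
        ∀ B : (G → F) → F, IsBlock B → numDzBlock p red B = 0 → ∀ (d : ℕ) (U : Subgroup (E ⧸ G)),
          IsCyclic U → radSum p G (fun σ => (kdGe p red G B d U σ : ℤ)) = 0) ∧
    ∀ (E : Type) [Group E] [Finite E] (G : Subgroup E) [G.Normal],
      (∀ U : Subgroup (E ⧸ G), IsCyclic U →
        (∀ V ≤ U, DadeLoc p red G (V.comap (QuotientGroup.mk' G))) →
        ∀ B : (G → F) → F, IsBlock B → numDzBlock p red B = 0 → ∀ d : ℕ,
          radSum p G (fun σ => (kdGe p red G B d U σ : ℤ)) = 0) ∧
      (IsCyclic (E ⧸ G) → (∀ K : Subgroup E, G ≤ K → DadeLoc p red G K) → DadeInv p red G) := by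
  refine ⟨main_iff red, ⟨fun h E _ _ G _ _ B hB hB0 d U hU =>
    main_ge red hU (fun V _ => fun P _ _ _ Q _ _ _ _ _ => h Q) hB hB0 d, fun h E _ _ => ?_⟩,
    fun E _ _ G _ => ⟨fun U hU hV B hB hB0 d => main_ge red hU hV hB hB0 d,
      fun hc hK => main_cyclic red hc hK⟩⟩
  intro hO B hB hB0 d U
  have h1 : Subsingleton (E ⧸ (⊤ : Subgroup E)) := QuotientGroup.subsingleton_quotient_top
  have h2 : Subsingleton (Subgroup (E ⧸ (⊤ : Subgroup E))) :=
    ⟨fun a b => by
      ext x
      have hx : x = 1 := Subsingleton.elim _ _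
      rw [hx]
      exact ⟨fun _ => b.one_mem, fun _ => a.one_mem⟩⟩
  have h3 := h E ⊤ hO B hB hB0 d U isCyclic_of_subsingleton
  have h4 : (fun σ => (kdGe p red (⊤ : Subgroup E) B d U σ : ℤ)) =
      fun σ => (kdU p red (⊤ : Subgroup E) B d U σ : ℤ) := by
    funext σ
    unfold kdGe kdU
    norm_cast
    refine Nat.card_congr (Equiv.subtypeEquivRight fun χ => ?_)
    constructor
    · rintro ⟨a, b, _, c⟩
      exact ⟨a, b, Subsingleton.elim _ _, c⟩
    · rintro ⟨a, b, c, e⟩
      exact ⟨a, b, c.ge, e⟩
  rw [h4] at h3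
  exact h3

end Pool.Agent.Results.MP_baa4d7_al.CyclicOperators
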