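import Pool.Agent.N237.DI.Fib

/-!
# Dade's invariant conjecture: the sums are multiplicative, one inequality suffices

`p` is a prime, `G` a normal subgroup of the finite group `E`, `Ē = E/G`, `U ≤ Ē`.  Blocks of `G` are
given by their central characters, the algebra homomorphisms `B` from the centre of the group algebra
`F[G]` to the algebraically closed field `F` of characteristic `p` (`IsBlock`); `red` is a reduction map
from the algebraic integers to `F`.  `kdGe p red G B d U σ` (`Pool/Agent/N20/DI/Stm2.lean`) is the number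
of the `ψ ∈ Irr(N_G(C))` of defect `d` with `b(ψ)^G = B` and `N_Ē(C, ψ) ≥ U`, that is
`∑_{V ≥ U} k_C(B, d, V)`, where `σ` is the set of the members `≠ 1` of the chain `C`;
`radSum p G f = ∑_C (-1)^|C| f(C)`, over representatives of the `G`-classes of radical `p`-chains
(`Pool/Agent/N20/DI/Stm3.lean`); `DadeInv p red G` (`Pool/Agent/N20/DI/Fin.lean`) is Q1 for `p`, `G`, `E`
(all `B`, `d`, `U`).

Outline of the proof.  `|G|` times a sum over the classes of chains is the sum over all chains of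
`(-1)^|C| |N_G(C)| f(C)`; a function of the subgroups of `E` is a combination of the indicator functions
of the sets `{S : S ≥ K}`, so that the sums are determined by the signed numbers of the chains of the
posets `S(K)` of the `p`-subgroups of `G` which are normalised by the subgroup `K` of `E`.  If
`π : Γ → E₁ × E₂` maps `G` isomorphically onto `G₁ × G₂` then for `K ≤ Γ` there is a Galois connection
between `S(K)` and `S(K₁) × S(K₂)`, `K_i` the projections of `K`, which gives the product of the signed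
numbers.  Only the stabilisers `π⁻¹(H₁ × H₂)` remain.  There `N_Γ(C, θ ⊗ ψ)` contains the coset of `x`
if and only if the cosets of both components of `π(x)` fix `θ` and `ψ`; defects add up and blocks are
products.  The conjecture for the squares gives the rest.
-/

set_option autoImplicit false

open scoped Classical

namespace Pool.Agent.Results.MP_baa4d7_al.OneInequality

open Pool.Agent.Y63.NV (IsBlock numDzBlock)
open Pool.Agent.N20.DI (kdGe radSum DadeInv)
open Pool.Agent.N237.DI (Iso2 Proj TenB)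

variable {F : Type} [Field F]

/-- `s_d(B, U) = ∑_C (-1)^|C| ∑_{V ≥ U} k_C(B, d, V)`, over representatives of the `G`-classes of the
radical `p`-chains of `G`. -/
noncomputable def sum (p : ℕ) (red : integralClosure ℤ ℂ →+* F) {E : Type} [Group E]
    (G : Subgroup E) [G.Normal] (U : Subgroup (E ⧸ G)) (B : (G → F) → F) (d : ℕ) : ℤ :=
  radSum p G (fun σ => (kdGe p red G B d U σ : ℤ))

/-- Classes of triples `(E, G, U)`, where `G` is normal in the finite group `E` and `U ≤ E/G`. -/
abbrev Cls : Type 1 :=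
  ∀ (E : Type) [Group E] [Finite E] (G : Subgroup E) [G.Normal], Subgroup (E ⧸ G) → Prop

/-- `Q` holds for `|G|` and the sequence `d ↦ s_d(B, U)`, for all `(E, G, U)` in `X` with `O_p(G) = 1`
and all blocks `B` of `G` with nontrivial defect groups (without characters of defect zero). -/
def All (p : ℕ) (red : integralClosure ℤ ℂ →+* F) (X : Cls) (Q : ℕ → (ℕ → ℤ) → Prop) : Prop :=
  ∀ (E : Type) [Group E] [Finite E] (G : Subgroup E) [G.Normal] (U : Subgroup (E ⧸ G))
    (B : (G → F) → F), X E G U → (∀ P : Subgroup G, P.Normal → IsPGroup p P → P = ⊥) →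
    IsBlock B → numDzBlock p red B = 0 → Q (Nat.card G) (sum p red G U B)

/-- `X` is closed under squares: for `(E, G, U)` in `X` some `(Γ, N, V)` in `X` has a homomorphism
`π : Γ → E × E` which maps `N` isomorphically onto `G × G` such that both images of `V` in `E/G` are
`U`. -/
def Squares (X : Cls) : Prop :=
  ∀ (E : Type) [Group E] [Finite E] (G : Subgroup E) [G.Normal] (U : Subgroup (E ⧸ G)), X E G U →
    ∃ (Γ : Type) (_ : Group Γ) (_ : Finite Γ) (N : Subgroup Γ) (_ : N.Normal)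
      (V : Subgroup (Γ ⧸ N)) (π : Γ →* E × E), Iso2 π N G G ∧ Proj π N G G V U U ∧ X Γ N V

theorem squares_of {X : Cls} {p : ℕ} [Fact p.Prime] (red : integralClosure ℤ ℂ →+* F)
    (hX : Squares X) :
    (All p red X (fun _ s => ∀ d, s d = 0) ↔
      All p red X (fun _ s => ∀ d, (∀ e, e < d → s e = 0) → s d ≤ 0)) ∧
    (∀ t : ℝ, Transcendental ℤ t → (All p red X (fun _ s => ∀ d, s d = 0) ↔
      All p red X (fun _ s => ∑ᶠ d : ℕ, (s d : ℝ) * t ^ d ≤ 0))) ∧
    (All p red X (fun _ s => ∀ N, ∑ d ∈ Finset.range N, s d ^ 2 ≤ 1) ↔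
      ∀ ε : ℝ, 0 < ε → ∃ C : ℝ, All p red X (fun n s => ∀ d, (s d : ℝ) ≤ C * (n : ℝ) ^ ε)) := by
  let P : ℕ → (ℕ → ℤ) → Prop := fun n s => ∃ (E : Type) (_ : Group E) (_ : Finite E)
      (G : Subgroup E) (_ : G.Normal) (U : Subgroup (E ⧸ G)) (B : (G → F) → F), X E G U ∧
        (∀ P : Subgroup G, P.Normal → IsPGroup p P → P = ⊥) ∧ IsBlock B ∧
        numDzBlock p red B = 0 ∧ n = Nat.card G ∧ s = sum p red G U B
  have hP : ∀ Q : ℕ → (ℕ → ℤ) → Prop, All p red X Q ↔ ∀ n s, P n s → Q n s := by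
    intro Q
    constructor
    · rintro h n s ⟨E, _, _, G, _, U, B, h1, h2, h3, h4, rfl, rfl⟩
      exact h E G U B h1 h2 h3 h4
    · intro h E _ _ G _ U B h1 h2 h3 h4
      exact h _ _ ⟨E, inferInstance, inferInstance, G, inferInstance, U, B, h1, h2, h3, h4, rfl,
        rfl⟩
  have hpos : ∀ n s, P n s → 1 ≤ n := by
    rintro n s ⟨E, _, _, G, _, U, B, -, -, -, -, rfl, -⟩
    exact Nat.card_pos
  have hsupp : ∀ n s, P n s → ∀ d, Nat.log 2 n < d → s d = 0 := by
    rintro n s ⟨E, _, _, G, _, U, B, -, -, -, -, rfl, rfl⟩ d hd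
    exact Pool.Agent.N237.DI.rad_supp red (Fact.out : p.Prime) G B U hd
  have hsq : ∀ n s, P n s → P (n * n) (Pool.Agent.Q99.AS.conv s s) := by
    rintro n s ⟨E, _, _, G, _, U, B, h1, h2, h3, h4, rfl, rfl⟩
    obtain ⟨Γ, _, _, N, _, V, π, hs, hV, hXV⟩ := hX E G U h1
    obtain ⟨B', hB', hT⟩ := Pool.Agent.N237.DI.exists_ten red hs h3 h3
    refine ⟨Γ, inferInstance, inferInstance, N, inferInstance, V, B', hXV,
      Pool.Agent.N237.DI.op_prod p hs h2 h2, hB',
      Pool.Agent.N237.DI.numDz_prod red p hs hB' h3 h3 hT h4, hs.card_G.symm, ?_⟩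
    funext d
    exact (Pool.Agent.N237.DI.rad_prod red hs hB' h3 h3 hT hV d).symm
  have h1 := Pool.Agent.Q99.AS.dichotomy hpos hsupp hsq
  refine ⟨?_, fun t ht => ?_, ?_⟩
  · rw [hP, hP]
    exact h1.1
  · rw [hP, hP]
    exact Pool.Agent.Q99.AS.real_ineq hsupp hsq t ht
  · rw [hP]
    simp only [hP]
    exact h1.2

theorem squares_inv (T : ∀ (A : Type) [Group A], Subgroup A → Prop)
    (hT : ∀ (A A' : Type) [Group A] [Group A'] (φ : A ≃* A') (W : Subgroup A), T A W →
      T A' (W.map φ.toMonoidHom)) : Squares (fun E _ _ G _ U => T (E ⧸ G) U) := by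
  intro E _ _ G _ U hU
  refine ⟨Pool.Agent.N237.DI.fib G, inferInstance, inferInstance, Pool.Agent.N237.DI.fg G,
    inferInstance, U.comap (Pool.Agent.N237.DI.fq G), (Pool.Agent.N237.DI.fib G).subtype,
    Pool.Agent.N237.DI.fib_iso G, Pool.Agent.N237.DI.fib_proj G U, ?_⟩
  have h1 := hT _ _ (Pool.Agent.N237.DI.fe G).symm U hU
  have h2 : U.comap (Pool.Agent.N237.DI.fq G) =
      U.map (Pool.Agent.N237.DI.fe G).symm.toMonoidHom :=
    Subgroup.comap_equiv_eq_map_symm (Pool.Agent.N237.DI.fe G) U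
  rw [← h2] at h1
  exact h1

/-- Let `p` be a prime.
(1) Let `Γ`, `E₁`, `E₂` be finite groups with normal subgroups `G`, `G₁`, `G₂` and let
`π : Γ → E₁ × E₂` be a homomorphism which maps `G` isomorphically onto `G₁ × G₂` (for instance
`Γ = E₁ × E₂`, or the fibre product of `E₁` and `E₂` over a common quotient).  Let `U ≤ Γ/G` have the
images `U₁ ≤ E₁/G₁` and `U₂ ≤ E₂/G₂`.  For blocks `B₁`, `B₂` of `G₁`, `G₂` there is a block `B₁ ⊗ B₂` of
`G`, and `s_d(B₁ ⊗ B₂, U) = ∑_{i + j = d} s_i(B₁, U₁) s_j(B₂, U₂)`.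
(2) Let `X` be a class of triples `(E, G, U)` closed under squares.  All the sums `s_d(B, U)` of the
conjecture are `0` for the triples in `X` if and only if in each sequence `d ↦ s_d(B, U)` the first
nonzero member (if any) is negative, and (for a transcendental real number `t`) if and only if
`∑_d s_d(B, U) t^d ≤ 0`.  In each sequence at most one member is not `0`, and this one is `± 1`, if and
only if for each `ε > 0` there is `C` such that all the sums are `≤ C |G|^ε`.
(3) For each property `T` of pairs (group, subgroup) invariant under isomorphisms the class of the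
triples `(E, G, U)` such that `(E/G, U)` has the property `T` is closed under squares.
(4) Let `𝒜` be a class of groups closed under isomorphisms, for instance the groups isomorphic to
a given finite group `A`.  Dade's invariant conjecture holds for all finite groups `E` and normal
subgroups `G` with `E/G` in `𝒜` if and only if for all these `E`, `G`, all `U` and `B` the first nonzero
member of the sequence `d ↦ s_d(B, U)` is negative; and also if and only if
`∑_d s_d(B, U) t^d ≤ 0`. -/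
theorem result (p : ℕ) [Fact p.Prime] (F : Type) [Field F] [IsAlgClosed F] [CharP F p]
    (red : integralClosure ℤ ℂ →+* F) :
    (∀ (Γ E₁ E₂ : Type) [Group Γ] [Group E₁] [Group E₂] [Finite Γ] [Finite E₁] [Finite E₂]
      (π : Γ →* E₁ × E₂) (G : Subgroup Γ) (G₁ : Subgroup E₁) (G₂ : Subgroup E₂) [G.Normal]
      [G₁.Normal] [G₂.Normal] (hs : Iso2 π G G₁ G₂) (B₁ : (G₁ → F) → F) (B₂ : (G₂ → F) → F),
      IsBlock B₁ → IsBlock B₂ → (∃ B : (G → F) → F, IsBlock B ∧ TenB hs B B₁ B₂) ∧
      ∀ B : (G → F) → F, IsBlock B → TenB hs B B₁ B₂ → ∀ (U : Subgroup (Γ ⧸ G))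
        (U₁ : Subgroup (E₁ ⧸ G₁)) (U₂ : Subgroup (E₂ ⧸ G₂)), Proj π G G₁ G₂ U U₁ U₂ → ∀ d : ℕ,
        sum p red G U B d = ∑ i ∈ Finset.HasAntidiagonal.antidiagonal d,
          sum p red G₁ U₁ B₁ i.1 * sum p red G₂ U₂ B₂ i.2) ∧
    (∀ X : Cls, Squares X →
      (All p red X (fun _ s => ∀ d, s d = 0) ↔
        All p red X (fun _ s => ∀ d, (∀ e, e < d → s e = 0) → s d ≤ 0)) ∧
      (∀ t : ℝ, Transcendental ℤ t → (All p red X (fun _ s => ∀ d, s d = 0) ↔
        All p red X (fun _ s => ∑ᶠ d : ℕ, (s d : ℝ) * t ^ d ≤ 0))) ∧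
      (All p red X (fun _ s => ∀ N, ∑ d ∈ Finset.range N, s d ^ 2 ≤ 1) ↔
        ∀ ε : ℝ, 0 < ε → ∃ C : ℝ, All p red X (fun n s => ∀ d, (s d : ℝ) ≤ C * (n : ℝ) ^ ε))) ∧
    (∀ T : ∀ (A : Type) [Group A], Subgroup A → Prop,
      (∀ (A A' : Type) [Group A] [Group A'] (φ : A ≃* A') (W : Subgroup A), T A W →
        T A' (W.map φ.toMonoidHom)) → Squares (fun E _ _ G _ U => T (E ⧸ G) U)) ∧
    ∀ 𝒜 : ∀ (A : Type) [Group A], Prop,
      (∀ (A A' : Type) [Group A] [Group A'], (A ≃* A') → 𝒜 A → 𝒜 A') →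
      ((∀ (E : Type) [Group E] [Finite E] (G : Subgroup E) [G.Normal], 𝒜 (E ⧸ G) →
          DadeInv p red G) ↔
        All p red (fun E _ _ G _ _ => 𝒜 (E ⧸ G))
          (fun _ s => ∀ d, (∀ e, e < d → s e = 0) → s d ≤ 0)) ∧
      ∀ t : ℝ, Transcendental ℤ t →
        ((∀ (E : Type) [Group E] [Finite E] (G : Subgroup E) [G.Normal], 𝒜 (E ⧸ G) →
          DadeInv p red G) ↔
        All p red (fun E _ _ G _ _ => 𝒜 (E ⧸ G))
          (fun _ s => ∑ᶠ d : ℕ, (s d : ℝ) * t ^ d ≤ 0)) := by
  refine ⟨fun Γ E₁ E₂ _ _ _ _ _ _ π G G₁ G₂ _ _ _ hs B₁ B₂ h1 h2 =>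
    ⟨Pool.Agent.N237.DI.exists_ten red hs h1 h2, fun B hB hT U U₁ U₂ hU d =>
      Pool.Agent.N237.DI.rad_prod red hs hB h1 h2 hT hU d⟩,
    fun X hX => squares_of red hX, squares_inv, fun 𝒜 h𝒜 => ?_⟩
  have hsq : Squares (fun E _ _ G _ _ => 𝒜 (E ⧸ G)) :=
    squares_inv (fun A _ _ => 𝒜 A) fun A A' _ _ φ _ h => h𝒜 A A' φ h
  have hD : (∀ (E : Type) [Group E] [Finite E] (G : Subgroup E) [G.Normal], 𝒜 (E ⧸ G) →
      DadeInv p red G) ↔ All p red (fun E _ _ G _ _ => 𝒜 (E ⧸ G)) (fun _ s => ∀ d, s d = 0) := by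
    constructor
    · intro h E _ _ G _ U B h1 h2 h3 h4 d
      exact (Pool.Agent.N237.DI.dadeInv_ge red G).1 (h E G h1) h2 B h3 h4 d U
    · intro h E _ _ G _ h1
      exact (Pool.Agent.N237.DI.dadeInv_ge red G).2 fun h2 B h3 h4 d U =>
        h E G U B h1 h2 h3 h4 d
  have h := squares_of (p := p) red hsq
  exact ⟨hD.trans h.1, fun t ht => hD.trans (h.2.1 t ht)⟩

end Pool.Agent.Results.MP_baa4d7_al.OneInequality
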